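import Mathlib

/-!
# Unique extension of upper quasi-densities from the positive integers to the nonnegative integers

Every upper quasi-density on the set of positive integers extends to exactly one upper
quasi-density on the set of nonnegative integers. The extension is `ν X = μ (X + 1)`.
-/

namespace Pool.Agent.Results.MP_32b555_nt.UniqueExtension

/-- Upper quasi-densities on the set of nonnegative integers: (F1), (F3), (F4 flat) and
values at most one; monotonicity is not assumed. -/
structure UpperQuasiDensityN (ν : Set ℕ → ℝ) : Prop where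
  /-- (F1) -/
  univ_eq : ν Set.univ = 1
  /-- (F3) -/
  union_le : ∀ X Y : Set ℕ, ν (X ∪ Y) ≤ ν X + ν Y
  /-- (F4 flat) -/
  affine : ∀ (X : Set ℕ) (h k : ℕ), 0 < h → 0 < k →
    ν ((fun x => k * x + h) '' X) = 1 / (k : ℝ) * ν X
  /-- values are at most one -/
  le_one : ∀ X : Set ℕ, ν X ≤ 1

/-- Upper quasi-densities on the set of positive integers: (F1), (F3), (F4 flat) and
values at most one; monotonicity is not assumed. -/
structure UpperQuasiDensityP (μ : Set ℕ+ → ℝ) : Prop where
  /-- (F1) -/
  univ_eq : μ Set.univ = 1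
  /-- (F3) -/
  union_le : ∀ X Y : Set ℕ+, μ (X ∪ Y) ≤ μ X + μ Y
  /-- (F4 flat) -/
  affine : ∀ (X : Set ℕ+) (h k : ℕ+), μ ((fun x => k * x + h) '' X) = 1 / (k : ℝ) * μ X
  /-- values are at most one -/
  le_one : ∀ X : Set ℕ+, μ X ≤ 1

/-- The set `X + 1` of positive integers, for a set `X` of nonnegative integers. -/
private def up (X : Set ℕ) : Set ℕ+ := Nat.succPNat '' X

private lemma up_univ : up Set.univ = Set.univ := by
  ext x
  simp only [up, Set.image_univ, Set.mem_range, Set.mem_univ, iff_true]
  exact ⟨x.natPred, PNat.succPNat_natPred x⟩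

private lemma up_union (X Y : Set ℕ) : up (X ∪ Y) = up X ∪ up Y := Set.image_union _ _ _

private lemma up_coe (X : Set ℕ+) :
    up ((fun x : ℕ+ => (x : ℕ)) '' X) = (fun x => (1 : ℕ+) * x + 1) '' X := by
  rw [up, Set.image_image]
  refine Set.image_congr fun x _ => ?_
  apply PNat.eq
  simp

private lemma up_affine (X : Set ℕ) (h : ℕ) (k : ℕ+) :
    (fun x => (1 : ℕ+) * x + k) '' up ((fun x => (k : ℕ) * x + h) '' X) =
      (fun x => k * x + Nat.succPNat h) '' up X := by
  simp only [up, Set.image_image]
  refine Set.image_congr fun x _ => ?_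
  apply PNat.eq
  simp only [PNat.add_coe, PNat.mul_coe, PNat.one_coe, Nat.succPNat_coe,
    Nat.succ_eq_add_one]
  ring

private lemma coe_up (X : Set ℕ) :
    (fun x : ℕ+ => (x : ℕ)) '' up X = (fun x => 1 * x + 1) '' X := by
  rw [up, Set.image_image]
  refine Set.image_congr fun x _ => ?_
  simp

/-- Every upper quasi-density `μ` on the positive integers has exactly one extension to an
upper quasi-density `ν` on the nonnegative integers. -/
theorem result (μ : Set ℕ+ → ℝ) (hμ : UpperQuasiDensityP μ) :
    ∃! ν : Set ℕ → ℝ, UpperQuasiDensityN ν ∧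
      ∀ X : Set ℕ+, ν ((fun x : ℕ+ => (x : ℕ)) '' X) = μ X := by
  have hshift : ∀ (X : Set ℕ+) (h : ℕ+), μ ((fun x => (1 : ℕ+) * x + h) '' X) = μ X := by
    intro X h
    have := hμ.affine X h 1
    simpa using this
  refine ⟨fun X => μ (up X), ⟨⟨?_, ?_, ?_, ?_⟩, ?_⟩, ?_⟩
  · show μ (up Set.univ) = 1
    rw [up_univ]
    exact hμ.univ_eq
  · intro X Y
    show μ (up (X ∪ Y)) ≤ μ (up X) + μ (up Y)
    rw [up_union]
    exact hμ.union_le _ _
  · intro X h k hh hk
    show μ (up ((fun x => k * x + h) '' X)) = 1 / (k : ℝ) * μ (up X)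
    lift k to ℕ+ using hk
    rw [← hshift (up ((fun x => (k : ℕ) * x + h) '' X)) k, up_affine X h k, hμ.affine]
  · intro X
    exact hμ.le_one _
  · intro X
    show μ (up ((fun x : ℕ+ => (x : ℕ)) '' X)) = μ X
    rw [up_coe, hshift]
  · rintro ν ⟨hν, hext⟩
    funext X
    show ν X = μ (up X)
    rw [← hext (up X), coe_up]
    have := hν.affine X 1 1 one_pos one_pos
    simpa using this.symm

end Pool.Agent.Results.MP_32b555_nt.UniqueExtension
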